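import Pool.Agent.Helper94.YF.St

/-! # Project YF, module FUS: basic facts -/

set_option autoImplicit false

namespace Pool.Agent.Helper36.YF

open Pool.Agent.Helper94.YF Matrix ComplexConjugate

section

variable {L : ℕ}

private theorem U_add (x y : ZMod L) : U (x + y) = U x * U y := by
  apply Subtype.ext
  rw [Matrix.SpecialLinearGroup.coe_mul]
  ext i j
  fin_cases i <;> fin_cases j <;> simp [U, Matrix.mul_apply, Fin.sum_univ_two, add_comm]

private theorem U_zero : U (0 : ZMod L) = 1 := by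
  apply Subtype.ext
  rw [Matrix.SpecialLinearGroup.coe_one]
  ext i j
  fin_cases i <;> fin_cases j <;> simp [U]

private theorem U_nat (k : ℕ) : U (k : ZMod L) = U 1 ^ k := by
  induction k with
  | zero => rw [Nat.cast_zero, U_zero, pow_zero]
  | succ k ih => rw [Nat.cast_succ, U_add, ih, pow_succ]

private theorem Lo_Sm (z : ZMod L) : Lo z * Sm = Sm * U (-z) := by
  apply Subtype.ext
  rw [Matrix.SpecialLinearGroup.coe_mul, Matrix.SpecialLinearGroup.coe_mul]
  ext i j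
  fin_cases i <;> fin_cases j <;> simp [U, Lo, Sm, Matrix.mul_apply, Fin.sum_univ_two]

private theorem col_fact (g g' : SL L) (c : (ZMod L)ˣ) (h0 : g' 0 0 = (c : ZMod L) * g 0 0)
    (h1 : g' 1 0 = (c : ZMod L) * g 1 0) : ∃ z : ZMod L, g' = g * (Dg c * U z) := by
  have hdet : g 0 0 * g 1 1 - g 0 1 * g 1 0 = 1 := by
    have := g.2
    rw [Matrix.det_fin_two] at this
    exact this
  obtain ⟨h, hh⟩ : ∃ h : SL L, h = g⁻¹ * g' := ⟨_, rfl⟩
  have hg' : g' = g * h := by rw [hh, mul_inv_cancel_left]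
  have hc : (h : Matrix (Fin 2) (Fin 2) (ZMod L)) = Matrix.adjugate (g : Matrix (Fin 2) (Fin 2) (ZMod L)) *
      (g' : Matrix (Fin 2) (Fin 2) (ZMod L)) := by
    rw [hh, Matrix.SpecialLinearGroup.coe_mul, Matrix.SpecialLinearGroup.coe_inv]
  have h00 : h 0 0 = c := by
    have : h 0 0 = g 1 1 * g' 0 0 + -g 0 1 * g' 1 0 := by
      rw [hc, Matrix.adjugate_fin_two, Matrix.mul_apply, Fin.sum_univ_two]
      simp
    rw [this, h0, h1]
    linear_combination (c : ZMod L) * hdet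
  have h10 : h 1 0 = 0 := by
    have : h 1 0 = -g 1 0 * g' 0 0 + g 0 0 * g' 1 0 := by
      rw [hc, Matrix.adjugate_fin_two, Matrix.mul_apply, Fin.sum_univ_two]
      simp
    rw [this, h0, h1]
    ring
  have hdh : h 0 0 * h 1 1 - h 0 1 * h 1 0 = 1 := by
    have := h.2
    rw [Matrix.det_fin_two] at this
    exact this
  have h11 : h 1 1 = ((c⁻¹ : (ZMod L)ˣ) : ZMod L) := by
    rw [h00, h10, mul_zero, sub_zero] at hdh
    calc h 1 1 = ((c⁻¹ : (ZMod L)ˣ) : ZMod L) * ((c : ZMod L) * h 1 1) := by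
          rw [← mul_assoc, Units.inv_mul, one_mul]
      _ = _ := by rw [hdh, mul_one]
  refine ⟨((c⁻¹ : (ZMod L)ˣ) : ZMod L) * h 0 1, ?_⟩
  rw [hg']
  congr 1
  apply Subtype.ext
  rw [Matrix.SpecialLinearGroup.coe_mul]
  ext i j
  fin_cases i <;> fin_cases j
  · simpa [Dg, U, Matrix.mul_apply, Fin.sum_univ_two] using h00
  · simp [Dg, U, Matrix.mul_apply, Fin.sum_univ_two]
  · simpa [Dg, U, Matrix.mul_apply, Fin.sum_univ_two] using h10
  · simpa [Dg, U, Matrix.mul_apply, Fin.sum_univ_two] using h11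

end

section

variable {I : Type} [Fintype I] [DecidableEq I] (Z : CentreRep I)

private theorem rho_nat (k : ℕ) : Z.rho (U (k : ZMod Z.L)) = Matrix.diagonal (fun i => Z.th i ^ k) := by
  rw [U_nat, map_pow, Z.rho_T, Matrix.diagonal_pow]
  rfl

private theorem rho_U (z : ZMod Z.L) : Z.rho (U z) = Matrix.diagonal (Z.tw z) := by
  have : NeZero Z.L := ⟨Z.L_pos.ne'⟩
  have h := rho_nat Z z.val
  rw [ZMod.natCast_zmod_val] at h
  exact h

private theorem th_L (i : I) : Z.th i ^ Z.L = 1 := by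
  have h := rho_nat Z Z.L
  rw [ZMod.natCast_self, U_zero, map_one] at h
  have h1 := congrFun (congrFun h i) i
  rw [Matrix.one_apply_eq, Matrix.diagonal_apply_eq] at h1
  exact h1.symm

private theorem tw_add (x y : ZMod Z.L) (i : I) : Z.tw (x + y) i = Z.tw x i * Z.tw y i := by
  have h := rho_U Z (x + y)
  rw [U_add, map_mul, rho_U, rho_U, Matrix.diagonal_mul_diagonal] at h
  have h1 := congrFun (congrFun h i) i
  rw [Matrix.diagonal_apply_eq, Matrix.diagonal_apply_eq] at h1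
  exact h1.symm

private theorem tw_one (i : I) : Z.tw 1 i = Z.th i := by
  have h := rho_U Z 1
  rw [Z.rho_T] at h
  have h1 := congrFun (congrFun h i) i
  rw [Matrix.diagonal_apply_eq, Matrix.diagonal_apply_eq] at h1
  exact h1.symm

private theorem tw_o (z : ZMod Z.L) : Z.tw z Z.o = 1 := by
  unfold CentreRep.tw
  rw [Z.th_o, one_pow]

private theorem tw_unit (z : ZMod Z.L) (i : I) : conj (Z.tw z i) * Z.tw z i = 1 := by
  have h := Z.unitary (U z)
  rw [rho_U, Matrix.diagonal_conjTranspose, Matrix.diagonal_mul_diagonal] at h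
  have h1 := congrFun (congrFun h i) i
  rw [Matrix.one_apply_eq, Matrix.diagonal_apply_eq] at h1
  exact h1

private theorem s_real (k : I) : conj (Z.rho Sm Z.o k) = Z.rho Sm Z.o k := by
  rw [Z.s_o, map_div₀, map_natCast, map_natCast]

private theorem lo_mul (z : ZMod Z.L) :
    Z.rho (Lo z) * Z.rho Sm = Z.rho Sm * Matrix.diagonal (Z.tw (-z)) := by
  rw [← map_mul, Lo_Sm, map_mul, rho_U]

private theorem lo_eq (z : ZMod Z.L) (i j : I) :
    Z.rho (Lo z) i j = ∑ k, Z.rho Sm i k * Z.tw (-z) k * conj (Z.rho Sm j k) := by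
  have h1 : Z.rho Sm * (Z.rho Sm)ᴴ = 1 := mul_eq_one_comm.1 (Z.unitary Sm)
  have h2 : Z.rho (Lo z) = Z.rho Sm * Matrix.diagonal (Z.tw (-z)) * (Z.rho Sm)ᴴ := by
    rw [← lo_mul, Matrix.mul_assoc, h1, Matrix.mul_one]
  rw [h2, Matrix.mul_apply]
  refine Finset.sum_congr rfl fun k _ => ?_
  rw [Matrix.mul_diagonal, Matrix.conjTranspose_apply]
  rfl

end

theorem hFUS : Pool.Agent.Helper94.YF.StFUS := by
  intro hDUA I _ _ Z
  obtain ⟨dst, dsto, dd, dth, -, -⟩ := hDUA I Z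
  have hn : (Z.n : ℂ) ≠ 0 := Nat.cast_ne_zero.2 Z.n_pos.ne'
  have tw_st : ∀ (z : ZMod Z.L) i, Z.tw z (Z.st i) = Z.tw z i := fun z i => by
    unfold CentreRep.tw
    rw [dth]
  refine ⟨rho_U Z, th_L Z, tw_add Z, fun i => ?_, tw_one Z, tw_o Z, tw_unit Z, fun z i j => ?_,
    fun z i j => ?_, fun z i => ?_, fun g g' c h0 h1 i => ?_⟩
  · unfold CentreRep.tw
    rw [ZMod.val_zero, pow_zero]
  · have h1 : ∀ l, (Z.N i (Z.st j) l : ℂ) * Z.rho (Lo z) l Z.o =
        ∑ k, (Z.N i (Z.st j) l : ℂ) * (Z.rho Sm l k * Z.tw (-z) k * Z.rho Sm Z.o k) := by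
      intro l
      rw [lo_eq, Finset.mul_sum]
      refine Finset.sum_congr rfl fun k _ => ?_
      rw [s_real]
    rw [Finset.sum_congr rfl fun l _ => h1 l, Finset.sum_comm, lo_eq]
    refine Finset.sum_congr rfl fun k _ => ?_
    have h2 := Z.verlinde i (Z.st j) k
    rw [Z.s_dual] at h2
    calc Z.rho Sm i k * Z.tw (-z) k * conj (Z.rho Sm j k)
        = Z.tw (-z) k * (Z.rho Sm i k * conj (Z.rho Sm j k)) := by ring
      _ = Z.tw (-z) k * (Z.rho Sm Z.o k * ∑ l, (Z.N i (Z.st j) l : ℂ) * Z.rho Sm l k) := by rw [h2]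
      _ = ∑ l, (Z.N i (Z.st j) l : ℂ) * (Z.rho Sm l k * Z.tw (-z) k * Z.rho Sm Z.o k) := by
        rw [Finset.mul_sum, Finset.mul_sum]
        refine Finset.sum_congr rfl fun l _ => ?_
        ring
  · rw [lo_eq, lo_eq]
    have hinv : Function.Involutive Z.st := dst
    rw [← Equiv.sum_comp hinv.toPerm (fun k => Z.rho Sm j k * Z.tw (-z) k * conj (Z.rho Sm i k))]
    refine Finset.sum_congr rfl fun k _ => ?_
    show _ = Z.rho Sm j (Z.st k) * Z.tw (-z) (Z.st k) * conj (Z.rho Sm i (Z.st k))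
    rw [Z.s_symm j (Z.st k), Z.s_symm i (Z.st k), Z.s_dual, Z.s_dual, tw_st, Complex.conj_conj,
      Z.s_symm k j, Z.s_symm k i]
    ring
  · have h1 := congrFun (congrFun (lo_mul Z z) i) Z.o
    rw [Matrix.mul_apply, Matrix.mul_diagonal, tw_o, mul_one] at h1
    have h2 : ∀ j, Z.rho Sm j Z.o = (Z.d j : ℂ) / Z.n := fun j => by rw [Z.s_symm, Z.s_o]
    rw [h2, Finset.sum_congr rfl fun j _ => by rw [h2 j, mul_div_assoc'], ← Finset.sum_div] at h1
    exact (div_left_inj' hn).1 h1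
  · obtain ⟨z, hz⟩ := col_fact g g' c h0 h1
    rw [hz, map_mul, map_mul, rho_U, Matrix.mul_apply]
    have h2 : ∀ j, (Z.rho (Dg c) * Matrix.diagonal (Z.tw z)) j Z.o = if j = Z.o then 1 else 0 := by
      intro j
      rw [Matrix.mul_diagonal, tw_o, mul_one, Z.borel]
    rw [Finset.sum_congr rfl fun j _ => by rw [h2 j]]
    simp

end Pool.Agent.Helper36.YF
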